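import Pool.Agent.H68.GCL.Targets

/-!
Row CHN of board gcl_modules: short chains.
-/

namespace Pool.Agent.H76.GCL

open Pool.Agent.H76.SW Pool.Agent.H68.GCL

theorem sat_eps {A V : Type} (E : V → A → V → Prop) (u v : V) :
    (epsT : Term A).Sat E u v ↔ u = v := by
  constructor
  · rintro ⟨μ, -, h1, h2⟩
    rw [← h1, ← h2]
  · rintro rfl
    exact ⟨fun _ => u, fun i => i.elim0, rfl, rfl⟩

theorem sat_seq {A V : Type} (E : V → A → V → Prop) (C L : Term A) (u v : V) :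
    (seqT C L).Sat E u v ↔ ∃ w, C.Sat E u w ∧ L.Sat E w v := by
  constructor
  · rintro ⟨μ, h, h1, h2⟩
    refine ⟨μ 1, ?_, ?_⟩
    · have := h 0
      rw [← h1]
      exact this
    · have := h 1
      rw [← h2]
      exact this
  · rintro ⟨w, h1, h2⟩
    refine ⟨![u, w, v], ?_, rfl, rfl⟩
    intro i
    fin_cases i
    · exact h1
    · exact h2

theorem sat_rev {A V : Type} (E : V → A → V → Prop) (T : Term A) (u v : V) :
    (revT T).Sat E u v ↔ T.Sat E v u := by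
  constructor
  · rintro ⟨μ, h, h1, h2⟩
    have := h 0
    rw [← h1, ← h2]
    exact this
  · intro h
    refine ⟨![u, v], ?_, rfl, rfl⟩
    intro i
    exact h

theorem sz_lnk {A : Type} (T : Term A) (b : Bool) : sz (lnk T b) ≤ 2 + sz T := by
  unfold lnk
  cases b
  · rw [if_neg (by decide)]
    simp [revT, sz]
  · rw [if_pos rfl]
    omega

theorem sz_seq {A : Type} (C L : Term A) : sz (seqT C L) = 3 + (sz C + sz L) := by
  simp [seqT, sz]

theorem sz_eps {A : Type} : sz (epsT : Term A) = 1 := by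
  simp [epsT, sz]

theorem tt_lnk (h1 : T_NOD) {A : Type} (q : ℕ) (T T' : Term A) (b : Bool) (h : tt q T = tt q T') :
    tt q (lnk T b) = tt q (lnk T' b) := by
  unfold lnk
  cases b
  · rw [if_neg (by decide), if_neg (by decide)]
    exact (h1 q (fun _ : Fin 1 => (1 : Fin 2)) (fun _ => 0) (fun _ => T) (fun _ => T')
      (fun _ => h)).1 0 1
  · rw [if_pos rfl, if_pos rfl]
    exact h

theorem tt_seq (h1 : T_NOD) {A : Type} (q : ℕ) (C C' L L' : Term A) (h : tt q C = tt q C')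
    (h' : tt q L = tt q L') : tt q (seqT C L) = tt q (seqT C' L') := by
  refine (h1 q (![0, 1] : Fin 2 → Fin 3) ![1, 2] ![C, L] ![C', L'] ?_).1 0 2
  intro i
  fin_cases i
  · exact h
  · exact h'

theorem path_snoc {Λ V : Type} {F : V → Λ → V → Prop} {u v t : V} {w : List (Λ × Bool)}
    {l : Λ × Bool} (h : Path F u w v) (hs : Step F v l t) : Path F u (w ++ [l]) t := by
  induction h with
  | nil u => exact Path.cons u t t l [] hs (Path.nil t)
  | cons u v x l' w h1 _ ih => exact Path.cons u v t l' (w ++ [l]) h1 (ih hs)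

/-- chains with their length and state -/
inductive Ch {A Λ : Type} {st : ℕ} (M : NFA (Λ × Bool) (Fin st)) (K : Λ → Set (Term A)) :
    ℕ → Fin st → Term A → Prop
  | nil (s : Fin st) (hs : s ∈ M.start) : Ch M K 0 s epsT
  | snoc (n : ℕ) (s s' : Fin st) (C T : Term A) (l : Λ) (b : Bool) (hc : Ch M K n s C)
      (hT : T ∈ K l) (hs : s' ∈ M.step s (l, b)) : Ch M K (n + 1) s' (seqT C (lnk T b))

theorem step_lnk {A Λ V : Type} (K : Λ → Set (Term A)) (E : V → A → V → Prop) (u v : V) (l : Λ)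
    (b : Bool) (T : Term A) (hT : T ∈ K l) (h : (lnk T b).Sat E u v) :
    Step (fun x l y => ∃ T ∈ K l, T.Sat E x y) u (l, b) v := by
  unfold Step
  unfold lnk at h
  cases b
  · rw [if_neg (by decide)] at h
    rw [if_neg (by simp)]
    exact ⟨T, hT, (sat_rev E T u v).mp h⟩
  · rw [if_pos rfl] at h
    rw [if_pos rfl]
    exact ⟨T, hT, h⟩

theorem lnk_step {A Λ V : Type} (K : Λ → Set (Term A)) (E : V → A → V → Prop) (u v : V)
    (l : Λ × Bool) (h : Step (fun x l y => ∃ T ∈ K l, T.Sat E x y) u l v) :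
    ∃ T ∈ K l.1, (lnk T l.2).Sat E u v := by
  obtain ⟨l, b⟩ := l
  unfold Step at h
  cases b
  · rw [if_neg (by simp)] at h
    obtain ⟨T, hT, h⟩ := h
    refine ⟨T, hT, ?_⟩
    exact (sat_rev E T u v).mpr h
  · rw [if_pos (by simp)] at h
    obtain ⟨T, hT, h⟩ := h
    exact ⟨T, hT, h⟩

theorem ch_sound {A Λ : Type} {st : ℕ} {M : NFA (Λ × Bool) (Fin st)} {K : Λ → Set (Term A)}
    {n : ℕ} {s : Fin st} {C : Term A} (h : Ch M K n s C) :
    ∀ (V : Type) (E : V → A → V → Prop) (u v : V), C.Sat E u v →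
      ∃ w, s ∈ M.evalFrom M.start w ∧ Path (fun x l y => ∃ T ∈ K l, T.Sat E x y) u w v := by
  induction h with
  | nil s hs =>
    intro V E u v h
    rw [sat_eps] at h
    subst h
    exact ⟨[], by rw [NFA.evalFrom_nil]; exact hs, Path.nil u⟩
  | snoc n s s' C T l b hc hT hs ih =>
    intro V E u v h
    rw [sat_seq] at h
    obtain ⟨x, h1, h2⟩ := h
    obtain ⟨w, h3, h4⟩ := ih V E u x h1
    refine ⟨w ++ [(l, b)], ?_, path_snoc h4 (step_lnk K E x v l b T hT h2)⟩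
    rw [NFA.evalFrom_append, NFA.evalFrom_singleton, NFA.mem_stepSet]
    exact ⟨s, h3, hs⟩

/-- the steps on the types -/
def RR {A Λ : Type} {st : ℕ} (q N : ℕ) (M : NFA (Λ × Bool) (Fin st)) (K : Λ → Set (Term A))
    (a a' : Fin st × Ty A Bool q 0) : Prop :=
  ∃ (l : Λ) (b : Bool) (T C : Term A), T ∈ K l ∧ sz T ≤ N ∧ a'.1 ∈ M.step a.1 (l, b) ∧
    tt q C = a.2 ∧ a'.2 = tt q (seqT C (lnk T b))

theorem run (h1 : T_NOD) {A Λ : Type} {st : ℕ} (q N : ℕ) (M : NFA (Λ × Bool) (Fin st))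
    (K0 K : Λ → Set (Term A))
    (hK : ∀ l, ∀ T ∈ K0 l, ∃ T' ∈ K l, tt q T' = tt q T ∧ sz T' ≤ N)
    (V : Type) (E : V → A → V → Prop) (u0 : V) {u v : V} {w : List (Λ × Bool)}
    (hp : Path (fun x l y => ∃ T ∈ K0 l, T.Sat E x y) u w v) :
    ∀ (s1 s : Fin st) (C : Term A), s ∈ M.evalFrom {s1} w → C.Sat E u0 u →
      ∃ C' : Term A, C'.Sat E u0 v ∧
        Relation.ReflTransGen (RR q N M K) (s1, tt q C) (s, tt q C') := by
  induction hp with
  | nil u =>
    intro s1 s C hs hC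
    rw [NFA.evalFrom_nil] at hs
    have : s = s1 := hs
    subst this
    exact ⟨C, hC, Relation.ReflTransGen.refl⟩
  | cons u v t l w hl _ ih =>
    intro s1 s C hs hC
    rw [NFA.evalFrom_cons, NFA.stepSet_singleton, NFA.mem_evalFrom_iff_exists] at hs
    obtain ⟨s2, hs2, hs⟩ := hs
    obtain ⟨T0, hT0, hsat⟩ := lnk_step K0 E u v l hl
    obtain ⟨T', hT', htt, hsz⟩ := hK l.1 T0 hT0
    have hC1 : (seqT C (lnk T0 l.2)).Sat E u0 v := (sat_seq E _ _ _ _).mpr ⟨u, hC, hsat⟩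
    obtain ⟨C', hC', hr⟩ := ih s2 s _ hs hC1
    refine ⟨C', hC', Relation.ReflTransGen.head ?_ hr⟩
    refine ⟨l.1, l.2, T', C, hT', hsz, hs2, rfl, ?_⟩
    exact tt_seq h1 q C C _ _ rfl (tt_lnk h1 q T0 T' l.2 htt.symm)

theorem pf_CHN (h1 : T_NOD) (h2 : T_WLK) (h3 : T_TNC) : T_CHN := by
  intro A Λ _ st q N M K0 K hK V E u v hw
  obtain ⟨w, hw, hp⟩ := hw
  rw [NFA.mem_accepts] at hw
  obtain ⟨s, hs, hs'⟩ := hw
  rw [NFA.mem_evalFrom_iff_exists] at hs'
  obtain ⟨s0, hs0, hs'⟩ := hs'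
  obtain ⟨C0, hC0, hr⟩ := run h1 q N M K0 K hK V E u hp s0 s epsT hs' ((sat_eps E u u).mpr rfl)
  have hfin : Finite (Ty A Bool q 0) := (h3 A Bool q 0).1
  obtain ⟨n, f, hn, hf0, hfn, hf⟩ := h2 (RR q N M K) _ _ hr
  have hmain : ∀ i ≤ n, ∃ C : Term A, Ch M K i (f i).1 C ∧ tt q C = (f i).2 ∧
      sz C ≤ 1 + i * (5 + N) := by
    intro i
    induction i with
    | zero =>
      intro _
      refine ⟨epsT, ?_, ?_, ?_⟩
      · rw [hf0]
        exact Ch.nil s0 hs0
      · rw [hf0]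
      · rw [sz_eps, Nat.zero_mul]
    | succ i ih =>
      intro hi
      obtain ⟨C, hC1, hC2, hC3⟩ := ih (by omega)
      obtain ⟨l, b, T, C', hT, hsz, hst, htt, he⟩ := hf i (by omega)
      refine ⟨seqT C (lnk T b), Ch.snoc i _ _ C T l b hC1 hT hst, ?_, ?_⟩
      · rw [he]
        exact tt_seq h1 q _ _ _ _ (hC2.trans htt.symm) rfl
      · rw [sz_seq]
        have := sz_lnk T b
        have h5 : (i + 1) * (5 + N) = i * (5 + N) + (5 + N) := by ring
        rw [h5]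
        omega
  obtain ⟨C, hC1, hC2, hC3⟩ := hmain n le_rfl
  rw [hfn] at hC1 hC2
  refine ⟨C0, C, hC0, hC2, hC3.trans ?_, ?_⟩
  · unfold CH
    have h4 : Nat.card (Fin st × Ty A Bool q 0) = st * Nat.card (Ty A Bool q 0) := by
      rw [Nat.card_prod, Nat.card_fin]
    rw [h4] at hn
    exact Nat.add_le_add_left (Nat.mul_le_mul_right _ hn) 1
  · intro V' E' u' v' hsat
    obtain ⟨w', hw', hp'⟩ := ch_sound hC1 V' E' u' v' hsat
    exact ⟨w', NFA.mem_accepts.mpr ⟨s, hs, hw'⟩, hp'⟩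

end Pool.Agent.H76.GCL
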