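import Pool.Agent.H68.GCL.Targets

/-!
Rows CMP, NOD of board gcl_modules: composition of types.
-/

namespace Pool.Agent.H76.GCL

open Pool.Agent.H76.SW Pool.Agent.H68.GCL

theorem snc_last {V : Type} {s : ℕ} (X : Fin s → Set V) (Y : Set V) : snc X Y (Fin.last s) = Y :=
  Fin.snoc_last (α := fun _ => Set V) _ _

theorem snc_cast {V : Type} {s : ℕ} (X : Fin s → Set V) (Y : Set V) (i : Fin s) :
    snc X Y i.castSucc = X i :=
  Fin.snoc_castSucc (α := fun _ => Set V) _ _ i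

theorem snc_pre {V W : Type} {s : ℕ} (ε : W → V) (X : Fin s → Set V) (Y : Set V) :
    (fun σ => {y | ε y ∈ snc X Y σ}) = snc (fun σ => {y | ε y ∈ X σ}) {y | ε y ∈ Y} := by
  funext σ
  refine Fin.lastCases ?_ (fun j => ?_) σ
  · rw [snc_last, snc_last]
  · rw [snc_cast, snc_cast]

/-- one inclusion at rank zero -/
theorem cmp_zero {A J V V' : Type} {n m : ℕ} (E : V → A → V → Prop) (β : Fin n → V)
    (Vi : Fin m → Type) (Ei : (i : Fin m) → Vi i → A → Vi i → Prop)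
    (ci : (i : Fin m) → Bool → Vi i) (src tgt : Fin m → Fin n) (ε : (i : Fin m) → Vi i → V)
    (E' : V' → A → V' → Prop) (β' : Fin n → V')
    (Vi' : Fin m → Type) (Ei' : (i : Fin m) → Vi' i → A → Vi' i → Prop)
    (ci' : (i : Fin m) → Bool → Vi' i) (ε' : (i : Fin m) → Vi' i → V')
    (hC : Cover E β Vi Ei ci src tgt ε) (hC' : Cover E' β' Vi' Ei' ci' src tgt ε')
    (κ : J → Fin n) (s : ℕ) (X : Fin s → Set V) (X' : Fin s → Set V')
    (h1 : ∀ x σ, β x ∈ X σ ↔ β' x ∈ X' σ)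
    (h2 : ∀ i, facts (Ei i) (ci i) (fun σ => {y | ε i y ∈ X σ}) =
      facts (Ei' i) (ci' i) (fun σ => {y | ε' i y ∈ X' σ})) :
    facts E (fun j => β (κ j)) X ⊆ facts E' (fun j => β' (κ j)) X' := by
  have hinc : ∀ (i : Fin m) (σ τ : Fin s), ({y | ε i y ∈ X σ} ⊆ {y | ε i y ∈ X τ}) ↔
      ({y | ε' i y ∈ X' σ} ⊆ {y | ε' i y ∈ X' τ}) := by
    intro i σ τ
    have h3 : (.inr (.inl (σ, τ)) : Fct A Bool s) ∈
        facts (Ei i) (ci i) (fun σ => {y | ε i y ∈ X σ}) ↔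
        .inr (.inl (σ, τ)) ∈ facts (Ei' i) (ci' i) (fun σ => {y | ε' i y ∈ X' σ}) := by rw [h2]
    exact h3
  have hne : ∀ (i : Fin m) (σ : Fin s), ({y | ε i y ∈ X σ}).Nonempty ↔
      ({y | ε' i y ∈ X' σ}).Nonempty := by
    intro i σ
    have h3 : (.inr (.inr (.inl σ)) : Fct A Bool s) ∈
        facts (Ei i) (ci i) (fun σ => {y | ε i y ∈ X σ}) ↔
        .inr (.inr (.inl σ)) ∈ facts (Ei' i) (ci' i) (fun σ => {y | ε' i y ∈ X' σ}) := by rw [h2]
    exact h3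
  have hed : ∀ (i : Fin m) (a : A) (σ τ : Fin s),
      (∃ x ∈ {y | ε i y ∈ X σ}, ∃ y ∈ {y | ε i y ∈ X τ}, Ei i x a y) ↔
      ∃ x ∈ {y | ε' i y ∈ X' σ}, ∃ y ∈ {y | ε' i y ∈ X' τ}, Ei' i x a y := by
    intro i a σ τ
    have h3 : (.inl (a, σ, τ) : Fct A Bool s) ∈
        facts (Ei i) (ci i) (fun σ => {y | ε i y ∈ X σ}) ↔
        .inl (a, σ, τ) ∈ facts (Ei' i) (ci' i) (fun σ => {y | ε' i y ∈ X' σ}) := by rw [h2]
    exact h3
  intro f hf
  match f with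
  | .inl (a, σ, τ) =>
    obtain ⟨x, hx, y, hy, he⟩ := hf
    rw [hC.edge] at he
    obtain ⟨i, x1, y1, hx1, hy1, he⟩ := he
    obtain ⟨x2, hx2, y2, hy2, he'⟩ := (hed i a σ τ).mp
      ⟨x1, by show ε i x1 ∈ X σ; rw [hx1]; exact hx, y1, by show ε i y1 ∈ X τ; rw [hy1]; exact hy,
        he⟩
    exact ⟨ε' i x2, hx2, ε' i y2, hy2, (hC'.edge _ _ _).mpr ⟨i, x2, y2, rfl, rfl, he'⟩⟩
  | .inr (.inl (σ, τ)) =>
    have hf' : X σ ⊆ X τ := hf
    show X' σ ⊆ X' τ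
    intro v hv
    rcases hC'.surj v with ⟨x, hx⟩ | ⟨i, y, hy⟩
    · rw [← hx] at hv ⊢
      exact (h1 x τ).mp (hf' ((h1 x σ).mpr hv))
    · rw [← hy] at hv ⊢
      have h3 : {y | ε i y ∈ X σ} ⊆ {y | ε i y ∈ X τ} := fun y hy => hf' hy
      exact (hinc i σ τ).mp h3 hv
  | .inr (.inr (.inl σ)) =>
    obtain ⟨v, hv⟩ : (X σ).Nonempty := hf
    show (X' σ).Nonempty
    rcases hC.surj v with ⟨x, hx⟩ | ⟨i, y, hy⟩
    · rw [← hx] at hv
      exact ⟨β' x, (h1 x σ).mp hv⟩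
    · rw [← hy] at hv
      obtain ⟨y', hy'⟩ := (hne i σ).mp ⟨y, hv⟩
      exact ⟨ε' i y', hy'⟩
  | .inr (.inr (.inr (j, σ))) =>
    have hf' : β (κ j) ∈ X σ := hf
    exact (h1 (κ j) σ).mp hf'

theorem pf_CMP (h0 : T_TMO) : T_CMP := by
  intro A J V V' n m E β Vi Ei ci src tgt ε E' β' Vi' Ei' ci' ε' hC hC' κ q
  -- the two directions together
  suffices H : ∀ (q s : ℕ) (X : Fin s → Set V) (X' : Fin s → Set V'),
      (∀ x σ, β x ∈ X σ ↔ β' x ∈ X' σ) →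
      (∀ i, tp (Ei i) (ci i) q (fun σ => {y | ε i y ∈ X σ}) =
        tp (Ei' i) (ci' i) q (fun σ => {y | ε' i y ∈ X' σ})) →
      tp E (fun j => β (κ j)) q X = tp E' (fun j => β' (κ j)) q X' from H q
  intro q
  induction q with
  | zero =>
    intro s X X' h1 h2
    exact Set.Subset.antisymm
      (cmp_zero E β Vi Ei ci src tgt ε E' β' Vi' Ei' ci' ε' hC hC' κ s X X' h1 h2)
      (cmp_zero E' β' Vi' Ei' ci' src tgt ε' E β Vi Ei ci ε hC' hC κ s X' X
        (fun x σ => (h1 x σ).symm) (fun i => (h2 i).symm))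
  | succ q ih =>
    intro s X X' h1 h2
    have d1 : ∀ Y : Set V, ∃ Y' : Set V', tp E (fun j => β (κ j)) q (snc X Y) =
        tp E' (fun j => β' (κ j)) q (snc X' Y') := by
      intro Y
      have h3 : ∀ i, ∃ Yi : Set (Vi' i),
          tp (Ei i) (ci i) q (snc (fun σ => {y | ε i y ∈ X σ}) {y | ε i y ∈ Y}) =
          tp (Ei' i) (ci' i) q (snc (fun σ => {y | ε' i y ∈ X' σ}) Yi) := fun i =>
        (h0 (Ei i) (ci i) (Ei' i) (ci' i)).2.2 q _ _ _ (h2 i) _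
      choose Yi hYi using h3
      have h4 : ∀ i b, ci' i b ∈ Yi i ↔ (if b then tgt i else src i) ∈ {x | β x ∈ Y} := by
        intro i b
        have h5 := (h0 (Ei i) (ci i) (Ei' i) (ci' i)).2.1 q _ _ _ (hYi i)
        have h6 : (.inr (.inr (.inr (b, Fin.last s))) : Fct A Bool (s + 1)) ∈
            facts (Ei i) (ci i) (snc (fun σ => {y | ε i y ∈ X σ}) {y | ε i y ∈ Y}) ↔
            .inr (.inr (.inr (b, Fin.last s))) ∈
            facts (Ei' i) (ci' i) (snc (fun σ => {y | ε' i y ∈ X' σ}) (Yi i)) := by rw [h5]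
        have h7 : ci i b ∈ snc (fun σ => {y | ε i y ∈ X σ}) {y | ε i y ∈ Y} (Fin.last s) ↔
            ci' i b ∈ snc (fun σ => {y | ε' i y ∈ X' σ}) (Yi i) (Fin.last s) := h6
        rw [snc_last, snc_last] at h7
        rw [← h7]
        show ε i (ci i b) ∈ Y ↔ β _ ∈ Y
        rw [hC.prt]
      obtain ⟨Z, hZ1, hZ2⟩ := hC'.univ {x | β x ∈ Y} Yi h4
      refine ⟨Z, ih (s + 1) (snc X Y) (snc X' Z) ?_ ?_⟩
      · intro x σ
        refine Fin.lastCases ?_ (fun j => ?_) σ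
        · rw [snc_last, snc_last]
          exact (hZ1 x).symm
        · rw [snc_cast, snc_cast]
          exact h1 x j
      · intro i
        have e : {y | ε' i y ∈ Z} = Yi i := Set.ext fun y => hZ2 i y
        rw [snc_pre, snc_pre, e]
        exact hYi i
    have d2 : ∀ Y : Set V', ∃ Y' : Set V, tp E' (fun j => β' (κ j)) q (snc X' Y) =
        tp E (fun j => β (κ j)) q (snc X Y') := by
      intro Y
      have h3 : ∀ i, ∃ Yi : Set (Vi i),
          tp (Ei' i) (ci' i) q (snc (fun σ => {y | ε' i y ∈ X' σ}) {y | ε' i y ∈ Y}) =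
          tp (Ei i) (ci i) q (snc (fun σ => {y | ε i y ∈ X σ}) Yi) := fun i =>
        (h0 (Ei' i) (ci' i) (Ei i) (ci i)).2.2 q _ _ _ (h2 i).symm _
      choose Yi hYi using h3
      have h4 : ∀ i b, ci i b ∈ Yi i ↔ (if b then tgt i else src i) ∈ {x | β' x ∈ Y} := by
        intro i b
        have h5 := (h0 (Ei' i) (ci' i) (Ei i) (ci i)).2.1 q _ _ _ (hYi i)
        have h6 : (.inr (.inr (.inr (b, Fin.last s))) : Fct A Bool (s + 1)) ∈
            facts (Ei' i) (ci' i) (snc (fun σ => {y | ε' i y ∈ X' σ}) {y | ε' i y ∈ Y}) ↔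
            .inr (.inr (.inr (b, Fin.last s))) ∈
            facts (Ei i) (ci i) (snc (fun σ => {y | ε i y ∈ X σ}) (Yi i)) := by rw [h5]
        have h7 : ci' i b ∈ snc (fun σ => {y | ε' i y ∈ X' σ}) {y | ε' i y ∈ Y} (Fin.last s) ↔
            ci i b ∈ snc (fun σ => {y | ε i y ∈ X σ}) (Yi i) (Fin.last s) := h6
        rw [snc_last, snc_last] at h7
        rw [← h7]
        show ε' i (ci' i b) ∈ Y ↔ β' _ ∈ Y
        rw [hC'.prt]
      obtain ⟨Z, hZ1, hZ2⟩ := hC.univ {x | β' x ∈ Y} Yi h4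
      refine ⟨Z, (ih (s + 1) (snc X Z) (snc X' Y) ?_ ?_).symm⟩
      · intro x σ
        refine Fin.lastCases ?_ (fun j => ?_) σ
        · rw [snc_last, snc_last]
          exact hZ1 x
        · rw [snc_cast, snc_cast]
          exact h1 x j
      · intro i
        have e : {y | ε i y ∈ Z} = Yi i := Set.ext fun y => hZ2 i y
        rw [snc_pre, snc_pre, e]
        exact (hYi i).symm
    show ({τ | ∃ Y : Set V, τ = tp E (fun j => β (κ j)) q (snc X Y)} : Set (Ty A J q (s + 1))) =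
      {τ | ∃ Y : Set V', τ = tp E' (fun j => β' (κ j)) q (snc X' Y)}
    ext τ
    constructor
    · rintro ⟨Y, rfl⟩
      exact d1 Y
    · rintro ⟨Y, rfl⟩
      exact d2 Y

theorem pf_NOD (h1 : T_CMP) (h2 : T_CVR) : T_NOD := by
  intro A q n m src tgt ch ch' h
  have hch : ∀ (i : Fin m) (X : Fin 0 → Set (Cv (ch i).stp)) (X' : Fin 0 → Set (Cv (ch' i).stp)),
      tp (canon (ch i).stp) (fun b => cl _ ((ch i).pt b)) q X =
      tp (canon (ch' i).stp) (fun b => cl _ ((ch' i).pt b)) q X' := by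
    intro i X X'
    have e1 : X = Fin.elim0 := Subsingleton.elim _ _
    have e2 : X' = Fin.elim0 := Subsingleton.elim _ _
    rw [e1, e2]
    exact h i
  constructor
  · intro p p'
    obtain ⟨ε, hε⟩ := h2 src tgt ch p p'
    obtain ⟨ε', hε'⟩ := h2 src tgt ch' p p'
    exact h1 _ _ _ _ _ src tgt ε _ _ _ _ _ ε' hε hε' (fun b : Bool => if b then p' else p) q 0
      Fin.elim0 Fin.elim0 (fun _ σ => σ.elim0) (fun i => hch i _ _)
  · intro r v0 out
    obtain ⟨ε, hε⟩ := h2 src tgt ch v0 v0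
    obtain ⟨ε', hε'⟩ := h2 src tgt ch' v0 v0
    exact h1 _ _ _ _ _ src tgt ε _ _ _ _ _ ε' hε hε' out q 0
      Fin.elim0 Fin.elim0 (fun _ σ => σ.elim0) (fun i => hch i _ _)

end Pool.Agent.H76.GCL
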