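import Pool.Agent.H68.GCL.Targets

/-!
Row INB of board gcl_modules: bodies are transferred.
-/

namespace Pool.Agent.H76.GCL

open Pool.Agent.H76.SW Pool.Agent.H68.GCL

section Facts

variable {A J V V' : Type} {E : V → A → V → Prop} {c : J → V} {E' : V' → A → V' → Prop}
  {c' : J → V'} {s : ℕ} {X : Fin s → Set V} {X' : Fin s → Set V'}

theorem f_incl (h : facts E c X = facts E' c' X') (σ τ : Fin s) :
    X σ ⊆ X τ ↔ X' σ ⊆ X' τ := by
  have h1 : (.inr (.inl (σ, τ)) : Fct A J s) ∈ facts E c X ↔ .inr (.inl (σ, τ)) ∈ facts E' c' X' := by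
    rw [h]
  exact h1

theorem f_port (h : facts E c X = facts E' c' X') (j : J) (σ : Fin s) :
    c j ∈ X σ ↔ c' j ∈ X' σ := by
  have h1 : (.inr (.inr (.inr (j, σ))) : Fct A J s) ∈ facts E c X ↔
      .inr (.inr (.inr (j, σ))) ∈ facts E' c' X' := by
    rw [h]
  exact h1

theorem f_edge (h : facts E c X = facts E' c' X') (a : A) (σ τ : Fin s) :
    (∃ x ∈ X σ, ∃ y ∈ X τ, E x a y) ↔ ∃ x ∈ X' σ, ∃ y ∈ X' τ, E' x a y := by
  have h1 : (.inl (a, σ, τ) : Fct A J s) ∈ facts E c X ↔ .inl (a, σ, τ) ∈ facts E' c' X' := by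
    rw [h]
  exact h1

end Facts

theorem path_snoc2 {Λ V : Type} {F : V → Λ → V → Prop} {u v t : V} {w : List (Λ × Bool)}
    {l : Λ × Bool} (h : Path F u w v) (hs : Step F v l t) : Path F u (w ++ [l]) t := by
  induction h with
  | nil u => exact Path.cons u t t l [] hs (Path.nil t)
  | cons u v x l' w h1 _ ih => exact Path.cons u v t l' (w ++ [l]) h1 (ih hs)

/-- one step is transferred -/
theorem step_tr {A J V V' : Type} {E : V → A → V → Prop} {c : J → V} {E' : V' → A → V' → Prop}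
    {c' : J → V'} {c0 q : ℕ} {R : Fin c0 → V → V → Prop} {R' : Fin c0 → V' → V' → Prop}
    (hR : ∀ j, Tr E c E' c' q (R j) (R' j)) {s : ℕ} {X : Fin s → Set V} {X' : Fin s → Set V'}
    (hf : facts E c X = facts E' c' X') (ht : tp E c q X = tp E' c' q X')
    {σ τ : Fin s} {x y : V} {x' y' : V'} (h1 : X σ = {x}) (h2 : X τ = {y}) (h3 : X' σ = {x'})
    (h4 : X' τ = {y'}) (l : A ⊕ Fin c0) (h : ext E R x l y) : ext E' R' x' l y' := by
  cases l with
  | inl a =>
    have h5 : ∃ x ∈ X σ, ∃ y ∈ X τ, E x a y := by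
      rw [h1, h2]
      exact ⟨x, rfl, y, rfl, h⟩
    rw [f_edge hf, h3, h4] at h5
    obtain ⟨u, rfl, v, rfl, h6⟩ := h5
    exact h6
  | inr j => exact hR j s X X' σ τ x y x' y' h1 h2 h3 h4 ht h

/-- one atom is transferred -/
theorem atom_tr (h1 : T_TMO) (h2 : T_TEX) (h3 : T_TSG) {A J V V' : Type} {E : V → A → V → Prop}
    {c : J → V} {E' : V' → A → V' → Prop}
    {c' : J → V'} {c0 q : ℕ} {R : Fin c0 → V → V → Prop} {R' : Fin c0 → V' → V' → Prop}
    (hR : ∀ j, Tr E c E' c' q (R j) (R' j)) {s : ℕ} {X : Fin s → Set V} {X' : Fin s → Set V'}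
    {st : ℕ} (M : NFA ((A ⊕ Fin c0) × Bool) (Fin st))
    (ht : tp E c (q + 3 + st) X = tp E' c' (q + 3 + st) X')
    {σ τ : Fin s} {x y : V} {x' y' : V'} (hx : X σ = {x}) (hy : X τ = {y}) (hx' : X' σ = {x'})
    (hy' : X' τ = {y'}) (h : ∃ w ∈ M.accepts, Path (ext E R) x w y) :
    ∃ w ∈ M.accepts, Path (ext E' R') x' w y' := by
  obtain ⟨Z, hZ⟩ := h2 E' c' E c (q + 3) st s X' X ht.symm
    (fun t => {y | ∃ w, t ∈ M.evalFrom M.start w ∧ Path (ext E' R') x' w y})
  have hf := (h1 E' c' E c).2.1 _ _ _ _ hZ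
  have hnat : ∀ t, Fin.append X Z (Fin.natAdd s t) = Z t := fun t => Fin.append_right X Z t
  have hcast : ∀ ρ, Fin.append X Z (Fin.castAdd st ρ) = X ρ := fun ρ => Fin.append_left X Z ρ
  have hnat' : ∀ t, Fin.append X' (fun t => {y | ∃ w, t ∈ M.evalFrom M.start w ∧
      Path (ext E' R') x' w y}) (Fin.natAdd s t) = {y | ∃ w, t ∈ M.evalFrom M.start w ∧
      Path (ext E' R') x' w y} := fun t => Fin.append_right X' _ t
  have hcast' : ∀ ρ, Fin.append X' (fun t => {y | ∃ w, t ∈ M.evalFrom M.start w ∧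
      Path (ext E' R') x' w y}) (Fin.castAdd st ρ) = X' ρ := fun ρ => Fin.append_left X' _ ρ
  generalize hW : Fin.append X' (fun t => {y | ∃ w, t ∈ M.evalFrom M.start w ∧
      Path (ext E' R') x' w y}) = W at hZ hf hnat' hcast'
  generalize hU : Fin.append X Z = U at hZ hf hnat hcast
  -- membership
  have hmem : ∀ (ρ : Fin s) (z : V) (z' : V') (t : Fin st), X ρ = {z} → X' ρ = {z'} →
      (z ∈ Z t ↔ ∃ w, t ∈ M.evalFrom M.start w ∧ Path (ext E' R') x' w z') := by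
    intro ρ z z' t hz hz'
    have h5 := f_incl hf (Fin.castAdd st ρ) (Fin.natAdd s t)
    rw [hcast, hnat, hcast', hnat', hz, hz', Set.singleton_subset_iff,
      Set.singleton_subset_iff] at h5
    exact h5.symm
  -- closure
  have hclo : ∀ (t t' : Fin st) (z z1 : V) (l : (A ⊕ Fin c0) × Bool), z ∈ Z t →
      Step (ext E R) z l z1 → t' ∈ M.step t l → z1 ∈ Z t' := by
    intro t t' z z1 l hz hs ht'
    obtain ⟨G', hG⟩ := h2 E c E' c' (q + 1) 2 _ U W hZ.symm ![{z}, {z1}]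
    obtain ⟨z', hz'⟩ := h3 E c E' c' q _ _ _ (Fin.natAdd (s + st) 0) z hG
      (by rw [Fin.append_right]; rfl)
    obtain ⟨z1', hz1'⟩ := h3 E c E' c' q _ _ _ (Fin.natAdd (s + st) 1) z1 hG
      (by rw [Fin.append_right]; rfl)
    have hq := (h1 E c E' c').1 (q + 1) q _ _ _ (Nat.le_succ q) hG
    have hf2 := (h1 E c E' c').2.1 _ _ _ _ hG
    have h5 := f_incl hf2 (Fin.natAdd (s + st) 0) (Fin.castAdd 2 (Fin.natAdd s t))
    rw [hz', Fin.append_right, Fin.append_left, Fin.append_left, hnat, hnat',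
      Set.singleton_subset_iff] at h5
    have h6 : ({z} : Set V) ⊆ Z t := Set.singleton_subset_iff.mpr hz
    obtain ⟨w, hw1, hw2⟩ := h5.mp h6
    have hst : Step (ext E' R') z' l z1' := by
      unfold Step at hs ⊢
      split_ifs at hs ⊢ with hl
      · exact step_tr hR hf2 hq (σ := Fin.natAdd (s + st) 0) (τ := Fin.natAdd (s + st) 1)
          (by rw [Fin.append_right]; rfl) (by rw [Fin.append_right]; rfl) hz' hz1' l.1 hs
      · exact step_tr hR hf2 hq (σ := Fin.natAdd (s + st) 1) (τ := Fin.natAdd (s + st) 0)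
          (by rw [Fin.append_right]; rfl) (by rw [Fin.append_right]; rfl) hz1' hz' l.1 hs
    have h7 := f_incl hf2 (Fin.natAdd (s + st) 1) (Fin.castAdd 2 (Fin.natAdd s t'))
    rw [hz1', Fin.append_right, Fin.append_left, Fin.append_left, hnat, hnat',
      Set.singleton_subset_iff] at h7
    have h8 : ({z1} : Set V) ⊆ Z t' := by
      refine h7.mpr ⟨w ++ [l], ?_, path_snoc2 hw2 hst⟩
      rw [NFA.evalFrom_append, NFA.evalFrom_singleton, NFA.mem_stepSet]
      exact ⟨t, hw1, ht'⟩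
    exact Set.singleton_subset_iff.mp h8
  have hpath : ∀ (z z1 : V) (w : List ((A ⊕ Fin c0) × Bool)), Path (ext E R) z w z1 →
      ∀ t t' : Fin st, z ∈ Z t → t' ∈ M.evalFrom {t} w → z1 ∈ Z t' := by
    intro z z1 w hp
    induction hp with
    | nil z =>
      intro t t' hz ht'
      rw [NFA.evalFrom_nil] at ht'
      have : t' = t := ht'
      rw [this]
      exact hz
    | cons z z2 z1 l w hs _ ih =>
      intro t t' hz ht'
      rw [NFA.evalFrom_cons, NFA.stepSet_singleton, NFA.mem_evalFrom_iff_exists] at ht'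
      obtain ⟨t2, ht2, ht'⟩ := ht'
      exact ih t2 t' (hclo t t2 z z2 l hz hs ht2) ht'
  obtain ⟨w, hw, hp⟩ := h
  rw [NFA.mem_accepts] at hw
  obtain ⟨t, hacc, ht⟩ := hw
  rw [NFA.mem_evalFrom_iff_exists] at ht
  obtain ⟨t0, ht0, ht⟩ := ht
  have h9 : x ∈ Z t0 := (hmem σ x x' t0 hx hx').mpr
    ⟨[], by rw [NFA.evalFrom_nil]; exact ht0, Path.nil x'⟩
  have h10 := hpath x y w hp t0 t h9 ht
  obtain ⟨w', hw1, hw2⟩ := (hmem τ y y' t hy hy').mp h10
  exact ⟨w', NFA.mem_accepts.mpr ⟨t, hacc, hw1⟩, hw2⟩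

theorem pf_INB (h1 : T_TMO) (h2 : T_TEX) (h3 : T_TSG) : T_INB := by
  intro A J V V' E c E' c' c0 b R R' q hR s X X' ht μ hμ
  have e1 : q + b.n + (∑ i, b.st i) + 3 = (q + (∑ i, b.st i) + 3) + b.n := by ring
  rw [e1] at ht
  obtain ⟨Z', hZ'⟩ := h2 E c E' c' _ b.n s X X' ht (fun v => {μ v})
  have h4 : ∀ v, ∃ u', Fin.append X' Z' (Fin.natAdd s v) = {u'} := fun v =>
    h3 E c E' c' _ _ _ _ (Fin.natAdd s v) (μ v) hZ' (by rw [Fin.append_right])
  choose μ' hμ' using h4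
  have hf := (h1 E c E' c').2.1 _ _ _ _ hZ'
  refine ⟨μ', ?_, ?_, ?_⟩
  · intro i
    have h5 : q + 3 + b.st i ≤ q + (∑ i, b.st i) + 3 := by
      have := Finset.single_le_sum (f := b.st) (fun _ _ => Nat.zero_le _) (Finset.mem_univ i)
      omega
    have h6 := (h1 E c E' c').1 _ _ _ _ _ h5 hZ'
    exact atom_tr h1 h2 h3 hR (b.aut i) h6 (σ := Fin.natAdd s (b.src i))
      (τ := Fin.natAdd s (b.tgt i)) (by rw [Fin.append_right]) (by rw [Fin.append_right])
      (hμ' _) (hμ' _) (hμ i)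
  · intro v σ h
    have h5 := f_incl hf (Fin.natAdd s v) (Fin.castAdd b.n σ)
    rw [hμ', Fin.append_right, Fin.append_left, Fin.append_left, Set.singleton_subset_iff,
      Set.singleton_subset_iff] at h5
    exact h5.mp h
  · intro v j h
    have h5 := f_port hf j (Fin.natAdd s v)
    rw [hμ', Fin.append_right, Set.mem_singleton_iff, Set.mem_singleton_iff] at h5
    exact h5.mp h

end Pool.Agent.H76.GCL
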