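import Pool.Agent.H68.GCL.Targets

/-!
Row INV of board gcl_modules: queries are transferred.
-/

namespace Pool.Agent.H76.GCL

open Pool.Agent.H76.SW Pool.Agent.H68.GCL

theorem inv_one (h1 : T_INB) (h2 : T_TMO) {A J V V' : Type} (E : V → A → V → Prop) (c : J → V)
    (E' : V' → A → V' → Prop) (c' : J → V') (δ : RQ A) :
    ∀ q : ℕ, rk δ ≤ q → Tr E c E' c' q (δ.Sat E) (δ.Sat E') := by
  induction δ with
  | cq c0 b sub p q0 ih =>
    intro q hq s X X' σ τ x y x' y' hx hy hx' hy' ht h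
    obtain ⟨μ, hμ, hp, hq0⟩ := h
    have hrk : (∑ j, rk (sub j)) + b.n + (∑ i, b.st i) + 3 ≤ q := by
      have : rk (RQ.cq c0 b sub p q0) = b.n + (∑ i, b.st i) + 3 + ∑ j, rk (sub j) := rfl
      omega
    have ht' := (h2 E c E' c').1 _ _ _ _ _ hrk ht
    obtain ⟨μ', hμ', h3, -⟩ := h1 E c E' c' b (fun j => (sub j).Sat E) (fun j => (sub j).Sat E')
      (∑ j, rk (sub j)) (fun j => ih j _ (Finset.single_le_sum (f := fun j => rk (sub j))
        (fun _ _ => Nat.zero_le _) (Finset.mem_univ j))) s X X' ht' μ hμ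
    refine ⟨μ', hμ', ?_, ?_⟩
    · have h4 := h3 p σ (by rw [hx, hp]; rfl)
      rw [hx'] at h4
      exact h4
    · have h4 := h3 q0 τ (by rw [hy, hq0]; rfl)
      rw [hy'] at h4
      exact h4
  | union u sub ih =>
    intro q hq s X X' σ τ x y x' y' hx hy hx' hy' ht h
    obtain ⟨j, hj⟩ := h
    have hrk : rk (sub j) ≤ q := by
      have h5 : rk (RQ.union u sub) = ∑ j, rk (sub j) := rfl
      have h6 := Finset.single_le_sum (f := fun j => rk (sub j))
        (fun _ _ => Nat.zero_le _) (Finset.mem_univ j)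
      have h7 : rk (sub j) ≤ ∑ j, rk (sub j) := h6
      omega
    exact ⟨j, ih j q hrk s X X' σ τ x y x' y' hx hy hx' hy' ht hj⟩

theorem rk_le {A : Type} (ω : RQ A) : rk ω ≤ 3 * ω.size := by
  induction ω with
  | cq c b sub p q ih =>
    have h1 : rk (RQ.cq c b sub p q) = b.n + (∑ i, b.st i) + 3 + ∑ j, rk (sub j) := rfl
    have h2 : (RQ.cq c b sub p q).size = 1 + (c + b.n + b.m + ∑ i, b.st i) + ∑ j, (sub j).size :=
      rfl
    have h3 : ∑ j, rk (sub j) ≤ 3 * ∑ j, (sub j).size := by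
      rw [Finset.mul_sum]
      exact Finset.sum_le_sum fun j _ => ih j
    rw [h1, h2]
    omega
  | union u sub ih =>
    have h1 : rk (RQ.union u sub) = ∑ j, rk (sub j) := rfl
    have h2 : (RQ.union u sub).size = 1 + u + ∑ j, (sub j).size := rfl
    have h3 : ∑ j, rk (sub j) ≤ 3 * ∑ j, (sub j).size := by
      rw [Finset.mul_sum]
      exact Finset.sum_le_sum fun j _ => ih j
    rw [h1, h2]
    omega

theorem rkC_le {A : Type} {r : ℕ} (t : CRQ A r) : rkC t ≤ 3 * t.size := by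
  have h1 : rkC t = t.b.n + (∑ i, t.b.st i) + 3 + ∑ j, rk (t.sub j) := rfl
  have h2 : t.size = 1 + (t.c + t.b.n + t.b.m + ∑ i, t.b.st i) + ∑ j, (t.sub j).size := rfl
  have h3 : ∑ j, rk (t.sub j) ≤ 3 * ∑ j, (t.sub j).size := by
    rw [Finset.mul_sum]
    exact Finset.sum_le_sum fun j _ => rk_le _
  rw [h1, h2]
  omega

theorem size_mem {A : Type} {r : ℕ} (Δ : Query A r) (t : CRQ A r) (ht : t ∈ Δ) :
    t.size ≤ Δ.size := by
  unfold Query.size
  exact List.single_le_sum (fun _ _ => Nat.zero_le _) _ (List.mem_map_of_mem ht)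

theorem pf_INV (h1 : T_INB) (h2 : T_TMO) : T_INV := by
  intro A
  constructor
  · intro J V V' E c E' c' δ q hq
    exact inv_one h1 h2 E c E' c' δ q hq
  · intro V V' E E' r Δ z z' ht h
    obtain ⟨t, htΔ, μ, hμ, hz⟩ := h
    have hrk : (∑ j, rk (t.sub j)) + t.b.n + (∑ i, t.b.st i) + 3 ≤ 3 * Δ.size := by
      have h3 := rkC_le t
      have h4 := size_mem Δ t htΔ
      have h5 : rkC t = t.b.n + (∑ i, t.b.st i) + 3 + ∑ j, rk (t.sub j) := rfl
      omega
    have ht' := (h2 E z E' z').1 _ _ _ _ _ hrk ht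
    obtain ⟨μ', hμ', -, h6⟩ := h1 E z E' z' t.b (fun j => (t.sub j).Sat E)
      (fun j => (t.sub j).Sat E') (∑ j, rk (t.sub j))
      (fun j => inv_one h1 h2 E z E' z' (t.sub j) _
        (Finset.single_le_sum (f := fun j => rk (t.sub j))
          (fun _ _ => Nat.zero_le _) (Finset.mem_univ j))) 0 _ _ ht' μ hμ
    exact ⟨t, htΔ, μ', hμ', fun j => (h6 (t.out j) j (hz j).symm).symm⟩

end Pool.Agent.H76.GCL
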