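import Pool.Agent.H68.GCL.Targets

/-!
Row NAM of board gcl_modules: the list of names.
-/

namespace Pool.Agent.H76.GCL

open Pool.Agent.H76.SW Pool.Agent.H68.GCL

theorem one_le_size {A : Type} (ω : RQ A) : 1 ≤ ω.size := by
  cases ω with
  | cq c b sub p q =>
    have h2 : (RQ.cq c b sub p q).size = 1 + b.size + ∑ j, (sub j).size := rfl
    omega
  | union u sub =>
    have h2 : (RQ.union u sub).size = 1 + u + ∑ j, (sub j).size := rfl
    omega

theorem sum_flat {α : Type} {n : ℕ} (f : Fin n → List α) (g : α → ℕ) :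
    ((List.ofFn f).flatten.map g).sum = ∑ j, ((f j).map g).sum := by
  rw [List.map_flatten, List.sum_flatten, List.map_map, List.map_ofFn, List.sum_ofFn]
  rfl

theorem sq_sum {n : ℕ} (f : Fin n → ℕ) : ∑ j, f j ^ 2 ≤ (∑ j, f j) ^ 2 := by
  have h : ∀ j ∈ Finset.univ, f j ^ 2 ≤ f j * ∑ j, f j := by
    intro j _
    rw [pow_two]
    exact Nat.mul_le_mul_left _ (Finset.single_le_sum (f := f) (fun _ _ => Nat.zero_le _)
      (Finset.mem_univ j))
  refine (Finset.sum_le_sum h).trans ?_
  rw [← Finset.sum_mul, pow_two]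

theorem subs_sum {A : Type} (ω : RQ A) : ((subs ω).map RQ.size).sum ≤ ω.size ^ 2 := by
  induction ω with
  | cq c b sub p q ih =>
    have h1 : subs (RQ.cq c b sub p q) =
        List.ofFn sub ++ (List.ofFn fun j => subs (sub j)).flatten := rfl
    have h2 : (RQ.cq c b sub p q).size = 1 + b.size + ∑ j, (sub j).size := rfl
    rw [h1, List.map_append, List.sum_append, sum_flat, List.map_ofFn, List.sum_ofFn]
    have h3 : ∑ j, ((subs (sub j)).map RQ.size).sum ≤ (∑ j, (sub j).size) ^ 2 :=
      (Finset.sum_le_sum fun j _ => ih j).trans (sq_sum _)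
    have h4 : ∑ i, (RQ.size ∘ sub) i = ∑ j, (sub j).size := rfl
    rw [h4, h2]
    nlinarith [h3, Nat.zero_le (∑ j, (sub j).size), Nat.zero_le b.size]
  | union u sub ih =>
    have h1 : subs (RQ.union u sub) = (List.ofFn fun j => subs (sub j)).flatten := rfl
    have h2 : (RQ.union u sub).size = 1 + u + ∑ j, (sub j).size := rfl
    rw [h1, sum_flat]
    have h3 : ∑ j, ((subs (sub j)).map RQ.size).sum ≤ (∑ j, (sub j).size) ^ 2 :=
      (Finset.sum_le_sum fun j _ => ih j).trans (sq_sum _)
    rw [h2]
    nlinarith [h3, Nat.zero_le (∑ j, (sub j).size)]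

theorem csubs_sum {A : Type} {r : ℕ} (t : CRQ A r) :
    ((csubs t).map RQ.size).sum ≤ t.size ^ 2 := by
  have h1 : csubs t = List.ofFn t.sub ++ (List.ofFn fun j => subs (t.sub j)).flatten := rfl
  have h2 : t.size = 1 + t.b.size + ∑ j, (t.sub j).size := rfl
  rw [h1, List.map_append, List.sum_append, sum_flat, List.map_ofFn, List.sum_ofFn]
  have h3 : ∑ j, ((subs (t.sub j)).map RQ.size).sum ≤ (∑ j, (t.sub j).size) ^ 2 :=
    (Finset.sum_le_sum fun j _ => subs_sum _).trans (sq_sum _)
  have h4 : ∑ i, (RQ.size ∘ t.sub) i = ∑ j, (t.sub j).size := rfl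
  rw [h4, h2]
  nlinarith [h3, Nat.zero_le (∑ j, (t.sub j).size), Nat.zero_le t.b.size]

theorem list_sum {A : Type} {r : ℕ} (Γ : Query A r) :
    ((Γ.flatMap csubs).map RQ.size).sum ≤ Γ.size ^ 2 := by
  induction Γ with
  | nil => simp
  | cons t Γ ih =>
    have h1 : Query.size (t :: Γ) = t.size + Query.size Γ := by
      simp [Query.size]
    rw [List.flatMap_cons, List.map_append, List.sum_append, h1]
    have h2 := csubs_sum t
    nlinarith [ih, h2, Nat.zero_le (t.size * Query.size Γ)]

open Classical in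
theorem toFinset_sum {α : Type} (L : List α) (f : α → ℕ) :
    ∑ x ∈ L.toFinset, f x ≤ (L.map f).sum := by
  induction L with
  | nil => simp
  | cons a L ih =>
    rw [List.toFinset_cons, List.map_cons, List.sum_cons]
    by_cases h : a ∈ L.toFinset
    · rw [Finset.insert_eq_of_mem h]
      exact ih.trans (Nat.le_add_left _ _)
    · rw [Finset.sum_insert h]
      exact Nat.add_le_add_left ih _

theorem pf_NAM : T_NAM := by
  intro A r k Γ
  classical
  refine ⟨?_, ?_, ?_⟩
  · intro x hx
    unfold names at hx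
    rw [List.mem_filter] at hx
    exact of_decide_eq_true hx.2
  · intro t ht x hx h
    unfold names
    rw [List.mem_filter]
    exact ⟨List.mem_flatMap.mpr ⟨t, ht, hx⟩, decide_eq_true h⟩
  · intro N e
    have h1 : ((names k Γ).map RQ.size).sum ≤ Γ.size ^ 2 := by
      refine le_trans ?_ (list_sum Γ)
      unfold names
      exact (List.Sublist.map _ (List.filter_sublist)).sum_le_sum (fun _ _ => Nat.zero_le _)
    have hinj : Function.Injective (fun n : Fin N => (e.symm n).1) := fun a b h =>
      e.symm.injective (Subtype.ext h)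
    have h2 : ∑ n : Fin N, ((e.symm n).1).size ≤ ((names k Γ).map RQ.size).sum := by
      refine le_trans ?_ (toFinset_sum (names k Γ) RQ.size)
      have h3 : ∑ n : Fin N, ((e.symm n).1).size =
          ∑ x ∈ Finset.univ.image (fun n : Fin N => (e.symm n).1), RQ.size x := by
        rw [Finset.sum_image (fun a _ b _ h => hinj h)]
      rw [h3]
      refine Finset.sum_le_sum_of_subset ?_
      intro x hx
      obtain ⟨n, -, rfl⟩ := Finset.mem_image.mp hx
      exact List.mem_toFinset.mpr (e.symm n).2
    have h3 : N ≤ ∑ n : Fin N, ((e.symm n).1).size := by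
      calc N = ∑ _n : Fin N, 1 := by simp
        _ ≤ _ := Finset.sum_le_sum fun n _ => one_le_size _
    omega

end Pool.Agent.H76.GCL
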