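import Pool.Agent.H68.GCL.Targets

/-!
Row SBS of board gcl_modules: substitution, evaluation.
-/

namespace Pool.Agent.H76.GCL

open Pool.Agent.H76.SW Pool.Agent.H68.GCL

theorem sbs_body (h1 : T_REL) {A I V : Type} {N : ℕ} (e : I ≃ Fin N) (g : I → RQ A)
    (E : V → A → V → Prop) {c : ℕ} (b : Body (A ⊕ I) c) (R : Fin c → V → V → Prop)
    (R' : Fin (c + N) → V → V → Prop) (hR : ∀ j u v, R' (Fin.castAdd N j) u v ↔ R j u v)
    (hR' : ∀ i u v, R' (Fin.natAdd c (e i)) u v ↔ (g i).Sat E u v) (μ : Fin b.n → V) :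
    (sbB e b).Holds E R' μ ↔ b.Holds (plus E g) R μ := by
  have hext : ∀ (l : ((A ⊕ I) ⊕ Fin c)) (β : Bool) (u v : V),
      ext E R' u (bl e c (l, β)).1 v ↔ ext (plus E g) R u l v := by
    intro l β u v
    match l with
    | .inl (.inl a) => exact Iff.rfl
    | .inl (.inr i) => exact hR' i u v
    | .inr j => exact hR j u v
  have hb : ∀ (l : ((A ⊕ I) ⊕ Fin c)) (β : Bool), (bl e c (l, β)).2 = β := by
    intro l β
    match l with
    | .inl (.inl a) => rfl
    | .inl (.inr i) => rfl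
    | .inr j => rfl
  have hstep : ∀ (l : ((A ⊕ I) ⊕ Fin c) × Bool) (u v : V),
      Step (ext E R') u (bl e c l) v ↔ Step (ext (plus E g) R) u l v := by
    rintro ⟨l, β⟩ u v
    unfold Step
    rw [hb]
    split_ifs
    · exact hext l β u v
    · exact hext l β v u
  have hpath := h1.2 (bl e c) (ext (plus E g) R) (ext E R') hstep
  constructor
  · intro h i
    obtain ⟨w', hw', hp⟩ := h i
    obtain ⟨w, hw, rfl⟩ := (h1.1 (bl e c) (b.aut i) w').mp hw'
    exact ⟨w, hw, (hpath w _ _).mp hp⟩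
  · intro h i
    obtain ⟨w, hw, hp⟩ := h i
    exact ⟨w.map (bl e c), (h1.1 (bl e c) (b.aut i) _).mpr ⟨w, hw, rfl⟩, (hpath w _ _).mpr hp⟩

theorem sbS_cast {A I : Type} {N : ℕ} (e : I ≃ Fin N) (g : I → RQ A) {c : ℕ} (s : Fin c → RQ A)
    (j : Fin c) : sbS e g s (Fin.castAdd N j) = s j :=
  Fin.addCases_left (motive := fun _ => RQ A) j

theorem sbS_nat {A I : Type} {N : ℕ} (e : I ≃ Fin N) (g : I → RQ A) {c : ℕ} (s : Fin c → RQ A)
    (i : I) : sbS e g s (Fin.natAdd c (e i)) = g i := by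
  have h : sbS e g s (Fin.natAdd c (e i)) = g (e.symm (e i)) :=
    Fin.addCases_right (motive := fun _ => RQ A) (e i)
  rw [h, e.symm_apply_apply]

theorem pf_SBS (h1 : T_REL) : T_SBS := by
  intro A I V N e g E
  have hω : ∀ (ω : RQ (A ⊕ I)) (u v : V), (sb e g ω).Sat E u v ↔ ω.Sat (plus E g) u v := by
    intro ω
    induction ω with
    | cq c b sub p q ih =>
      intro u v
      have hB := fun μ => sbs_body h1 e g E b (fun j => (sub j).Sat (plus E g))
        (fun x => (sbS e g (fun j => sb e g (sub j)) x).Sat E)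
        (fun j u v => by rw [sbS_cast]; exact ih j u v) (fun i u v => by rw [sbS_nat]) μ
      constructor
      · rintro ⟨μ, hμ, h2⟩
        exact ⟨μ, (hB μ).mp hμ, h2⟩
      · rintro ⟨μ, hμ, h2⟩
        exact ⟨μ, (hB μ).mpr hμ, h2⟩
    | union u sub ih =>
      intro x y
      constructor
      · rintro ⟨j, hj⟩
        exact ⟨j, (ih j x y).mp hj⟩
      · rintro ⟨j, hj⟩
        exact ⟨j, (ih j x y).mpr hj⟩
  refine ⟨hω, ?_⟩
  intro r t z
  have hB := fun μ => sbs_body h1 e g E t.b (fun j => (t.sub j).Sat (plus E g))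
    (fun x => (sbS e g (fun j => sb e g (t.sub j)) x).Sat E)
    (fun j u v => by rw [sbS_cast]; exact hω _ u v) (fun i u v => by rw [sbS_nat]) μ
  constructor
  · rintro ⟨μ, hμ, h2⟩
    exact ⟨μ, (hB μ).mp hμ, h2⟩
  · rintro ⟨μ, hμ, h2⟩
    exact ⟨μ, (hB μ).mpr hμ, h2⟩

end Pool.Agent.H76.GCL
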