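import Pool.Agent.H68.GCL.Targets

/-!
Row TEX of board gcl_modules: extension by several sets.
-/

namespace Pool.Agent.H76.GCL

open Pool.Agent.H76.SW Pool.Agent.H68.GCL

theorem append_snc {V : Type} {s n : ℕ} (X : Fin s → Set V) (Z : Fin (n + 1) → Set V) :
    snc (Fin.append X (fun i => Z i.castSucc)) (Z (Fin.last n)) = Fin.append X Z := by
  funext i
  refine Fin.lastCases ?_ (fun j => ?_) i
  · have h : Fin.append X Z (Fin.natAdd s (Fin.last n)) = Z (Fin.last n) := Fin.append_right X Z _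
    exact (Fin.snoc_last (α := fun _ => Set V) _ _).trans h.symm
  · refine (Fin.snoc_castSucc (α := fun _ => Set V) _ _ j).trans ?_
    refine Fin.addCases (fun a => ?_) (fun a => ?_) j
    · rw [Fin.append_left]
      exact (Fin.append_left X Z a).symm
    · rw [Fin.append_right]
      exact (Fin.append_right X Z a.castSucc).symm

theorem pf_TEX (h1 : T_TMO) : T_TEX := by
  intro A J V V' E c E' c' q n s X X'
  induction n generalizing q with
  | zero =>
    intro h Z
    refine ⟨fun i => i.elim0, ?_⟩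
    have e1 : (Fin.append X Z : Fin s → Set V) = X := by
      funext i
      exact Fin.append_left X Z i
    have e2 : (Fin.append X' (fun i : Fin 0 => i.elim0) : Fin s → Set V') = X' := by
      funext i
      exact Fin.append_left X' _ i
    have e3 : tp E c q (Fin.append X Z) = tp E c q X := congrArg (tp E c q (s := s)) e1
    have e4 : tp E' c' q (Fin.append X' (fun i : Fin 0 => i.elim0)) = tp E' c' q X' :=
      congrArg (tp E' c' q (s := s)) e2
    exact e3.trans (h.trans e4.symm)
  | succ n ih =>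
    intro h Z
    have e : q + (n + 1) = q + 1 + n := by ring
    rw [e] at h
    obtain ⟨Z0, hZ0⟩ := ih (q + 1) h (fun i => Z i.castSucc)
    obtain ⟨Y, hY⟩ := (h1 E c E' c').2.2 q _ _ _ hZ0 (Z (Fin.last n))
    refine ⟨Fin.snoc (α := fun _ => Set V') Z0 Y, ?_⟩
    have e1 := append_snc X Z
    have e2 := append_snc X' (Fin.snoc (α := fun _ => Set V') Z0 Y)
    have e3 : (fun i : Fin n => (Fin.snoc (α := fun _ => Set V') Z0 Y : Fin (n + 1) → Set V')
        i.castSucc) = Z0 := by
      funext i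
      exact Fin.snoc_castSucc (α := fun _ => Set V') _ _ i
    have e4 : (Fin.snoc (α := fun _ => Set V') Z0 Y : Fin (n + 1) → Set V') (Fin.last n) = Y :=
      Fin.snoc_last (α := fun _ => Set V') _ _
    rw [e3, e4] at e2
    rw [e1, e2] at hY
    exact hY

theorem pf_TSG (h1 : T_TMO) : T_TSG := by
  intro A J V V' E c E' c' q s X X' σ u h hu
  have hf := (h1 E c E' c').2.1 _ _ _ _ h
  have hne : (X' σ).Nonempty := by
    have h2 : (.inr (.inr (.inl σ)) : Fct A J s) ∈ facts E c X ↔
        .inr (.inr (.inl σ)) ∈ facts E' c' X' := by rw [hf]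
    have h3 : (X σ).Nonempty ↔ (X' σ).Nonempty := h2
    rw [← h3, hu]
    exact Set.singleton_nonempty u
  obtain ⟨a, ha⟩ := hne
  refine ⟨a, ?_⟩
  obtain ⟨Y, hY⟩ := (h1 E' c' E c).2.2 q s X' X h.symm {a}
  have hf2 := (h1 E' c' E c).2.1 _ _ _ _ hY
  have l1 : ∀ (W : Type) (S : Fin s → Set W) (T : Set W), snc S T (Fin.last s) = T := fun W S T =>
    Fin.snoc_last (α := fun _ => Set W) _ _
  have l2 : ∀ (W : Type) (S : Fin s → Set W) (T : Set W) (i : Fin s), snc S T i.castSucc = S i :=
    fun W S T i => Fin.snoc_castSucc (α := fun _ => Set W) _ _ i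
  have h4 : ∀ τ : Fin (s + 1), (snc X' {a} τ).Nonempty ↔ (snc X Y τ).Nonempty := by
    intro τ
    have h2 : (.inr (.inr (.inl τ)) : Fct A J (s + 1)) ∈ facts E' c' (snc X' {a}) ↔
        .inr (.inr (.inl τ)) ∈ facts E c (snc X Y) := by rw [hf2]
    exact h2
  have h5 : ∀ σ τ : Fin (s + 1), snc X' {a} σ ⊆ snc X' {a} τ ↔ snc X Y σ ⊆ snc X Y τ := by
    intro σ τ
    have h2 : (.inr (.inl (σ, τ)) : Fct A J (s + 1)) ∈ facts E' c' (snc X' {a}) ↔
        .inr (.inl (σ, τ)) ∈ facts E c (snc X Y) := by rw [hf2]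
    exact h2
  have h6 : Y.Nonempty := by
    have := h4 (Fin.last s)
    rw [l1, l1] at this
    exact this.mp (Set.singleton_nonempty a)
  have h7 : Y ⊆ X σ := by
    have := h5 (Fin.last s) σ.castSucc
    rw [l1, l1, l2, l2] at this
    exact this.mp (Set.singleton_subset_iff.mpr ha)
  have h8 : X σ ⊆ Y := by
    rw [hu] at h7 ⊢
    obtain ⟨y, hy⟩ := h6
    have : y = u := h7 hy
    rw [← this]
    exact Set.singleton_subset_iff.mpr hy
  have h9 : X' σ ⊆ {a} := by
    have := h5 σ.castSucc (Fin.last s)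
    rw [l1, l1, l2, l2] at this
    exact this.mpr h8
  exact Set.Subset.antisymm h9 (Set.singleton_subset_iff.mpr ha)

end Pool.Agent.H76.GCL
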