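import Pool.Agent.H68.GCL.Targets

/-!
Rows TMO, TEX, TSG of board gcl_modules: lower ranks, extension by sets, singletons.
-/

namespace Pool.Agent.H76.GCL

open Pool.Agent.H76.SW Pool.Agent.H68.GCL

theorem tp_extend {A J V V' : Type} (E : V → A → V → Prop) (c : J → V) (E' : V' → A → V' → Prop)
    (c' : J → V') (q s : ℕ) (X : Fin s → Set V) (X' : Fin s → Set V')
    (h : tp E c (q + 1) X = tp E' c' (q + 1) X') (Y : Set V) :
    ∃ Y' : Set V', tp E c q (snc X Y) = tp E' c' q (snc X' Y') := by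
  have h0 : ({τ | ∃ Y : Set V, τ = tp E c q (snc X Y)} : Set (Ty A J q (s + 1))) =
      {τ | ∃ Y : Set V', τ = tp E' c' q (snc X' Y)} := h
  have h1 : tp E c q (snc X Y) ∈
      ({τ | ∃ Y : Set V, τ = tp E c q (snc X Y)} : Set (Ty A J q (s + 1))) := ⟨Y, rfl⟩
  rw [h0] at h1
  exact h1

theorem tp_lower (h1 : T_TRI) {A J V V' : Type} (E : V → A → V → Prop) (c : J → V)
    (E' : V' → A → V' → Prop) (c' : J → V') (q s : ℕ) (X : Fin s → Set V) (X' : Fin s → Set V')
    (h : tp E c (q + 1) X = tp E' c' (q + 1) X') : tp E c q X = tp E' c' q X' := by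
  obtain ⟨Y', hY⟩ := tp_extend E c E' c' q s X X' h ∅
  have h2 := h1 E c E' c' q (s + 1) s Fin.castSucc _ _ hY
  have e1 : (fun σ : Fin s => snc X ∅ (Fin.castSucc σ)) = X := by
    funext σ
    exact Fin.snoc_castSucc (α := fun _ => Set V) _ _ σ
  have e2 : (fun σ : Fin s => snc X' Y' (Fin.castSucc σ)) = X' := by
    funext σ
    exact Fin.snoc_castSucc (α := fun _ => Set V') _ _ σ
  rw [e1, e2] at h2
  exact h2

theorem pf_TMO (h1 : T_TRI) : T_TMO := by
  intro A J V V' E c E' c'
  refine ⟨?_, ?_, ?_⟩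
  · intro q q' s X X' hq
    induction q, hq using Nat.le_induction with
    | base => exact fun h => h
    | succ q _ ih => exact fun h => ih (tp_lower h1 E c E' c' q s X X' h)
  · intro q s X X'
    induction q with
    | zero => exact fun h => h
    | succ q ih => exact fun h => ih (tp_lower h1 E c E' c' q s X X' h)
  · intro q s X X' h Y
    exact tp_extend E c E' c' q s X X' h Y

end Pool.Agent.H76.GCL
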